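import Mathlib
import Pool.Agent.Helper23.Twist
import Pool.Agent.Helper23.Haagerup
import Pool.Agent.Helper23.RDGam

set_option autoImplicit false

namespace Pool.Agent.Results.MP_fb096d_an.NotInvariant

/-- The word length of `g` with respect to `S`: the least `n` such that `g` is a product of
`n` elements of `S`. -/
noncomputable def wordLength {G : Type} [Group G] (S : Set G) (g : G) : ℕ :=
  sInf {n : ℕ | ∃ l : List G, l.length = n ∧ (∀ a ∈ l, a ∈ S) ∧ l.prod = g}

/-- `S` is a finite symmetric generating set of `G`. -/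
def IsFinSymmGen {G : Type} [Group G] (S : Set G) : Prop :=
  S.Finite ∧ (∀ a ∈ S, a⁻¹ ∈ S) ∧ Subgroup.closure S = ⊤

/-- The Cayley graph of `G` with respect to `S`. -/
def cayleyGraph {G : Type} [Group G] (S : Set G) : SimpleGraph G where
  Adj g h := g ≠ h ∧ (g⁻¹ * h ∈ S ∨ h⁻¹ * g ∈ S)
  symm := ⟨fun _ _ h => ⟨h.1.symm, h.2.symm⟩⟩
  loopless := ⟨fun _ h => h.1 rfl⟩

/-- The weighted norm `‖f‖_{2,s}`. -/
noncomputable def weightedNorm {G : Type} [Group G] (S : Set G) (s : ℝ) (f : G →₀ ℂ) : ℝ :=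
  Real.sqrt (∑ g ∈ f.support, ‖f g‖ ^ 2 * (1 + (wordLength S g : ℝ)) ^ (2 * s))

/-- Left convolution by `f`. -/
noncomputable def conv {G : Type} [Group G] (f : G →₀ ℂ) (ξ : G → ℂ) (x : G) : ℂ :=
  ∑ y ∈ f.support, f y * ξ (y⁻¹ * x)

/-- Left convolution by `f` is a bounded operator on `ℓ²(G)` of norm at most `M`. -/
def OpNormLE {G : Type} [Group G] (f : G →₀ ℂ) (M : ℝ) : Prop :=
  ∀ ξ : G → ℂ, Summable (fun x => ‖ξ x‖ ^ 2) →
    Summable (fun x => ‖conv f ξ x‖ ^ 2) ∧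
      Real.sqrt (∑' x, ‖conv f ξ x‖ ^ 2) ≤ M * Real.sqrt (∑' x, ‖ξ x‖ ^ 2)

/-- Property RD with respect to the word length of `S`. -/
def HasRD {G : Type} [Group G] (S : Set G) : Prop :=
  ∃ C s : ℝ, 0 ≤ s ∧ ∀ f : G →₀ ℂ, OpNormLE f (C * weightedNorm S s f)

open Pool.Agent.Helper23.Twist Pool.Agent.Helper23.Haagerup Pool.Agent.Helper23.RDGam

section wl

variable {G : Type} [Group G] {S : Set G}

lemma wl_le {n : ℕ} {g : G} (h : IsProd S n g) : wordLength S g ≤ n := Nat.sInf_le h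

lemma wl_isProd (hS : IsFinSymmGen S) (g : G) : IsProd S (wordLength S g) g :=
  Nat.sInf_mem (s := {n : ℕ | ∃ l : List G, l.length = n ∧ (∀ a ∈ l, a ∈ S) ∧ l.prod = g})
    (exists_isProd hS.2.1 hS.2.2 g)

lemma wl_mul (hS : IsFinSymmGen S) (g h : G) :
    wordLength S (g * h) ≤ wordLength S g + wordLength S h :=
  wl_le ((wl_isProd hS g).mul (wl_isProd hS h))

lemma wl_one : wordLength S (1 : G) = 0 := by
  have := wl_le (S := S) (g := (1 : G)) (n := 0) ⟨[], rfl, by simp, rfl⟩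
  omega

lemma wl_list (hS : IsFinSymmGen S) (M : ℕ) (l : List G) (h : ∀ a ∈ l, wordLength S a ≤ M) :
    wordLength S l.prod ≤ l.length * M := by
  induction l with
  | nil => simp [wl_one]
  | cons a l ih =>
    rw [List.prod_cons, List.length_cons]
    have h1 := wl_mul hS a l.prod
    have h2 := h a (by simp)
    have h3 := ih (fun b hb => h b (by simp [hb]))
    calc _ ≤ M + l.length * M := by omega
      _ = (l.length + 1) * M := by ring

end wl

/-- comparison of the intrinsic length with any word length on `Gam` -/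
lemma LL_le (S : Set Gam) (hS : IsFinSymmGen S) : ∃ M : ℕ, ∀ x : Gam, LL x ≤ wordLength S x * M := by
  classical
  refine ⟨hS.1.toFinset.sup LL, fun x => ?_⟩
  obtain ⟨l, h1, h2, h3⟩ := wl_isProd hS x
  rw [← h1, ← h3]
  clear h1 h3
  induction l with
  | nil => simp [LL_one]
  | cons a l ih =>
    rw [List.prod_cons, List.length_cons]
    have e1 := LL_mul a l.prod
    have e2 : LL a ≤ hS.1.toFinset.sup LL :=
      Finset.le_sup (f := LL) (hS.1.mem_toFinset.mpr (h2 a (by simp)))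
    have e3 := ih (fun b hb => h2 b (by simp [hb]))
    calc _ ≤ hS.1.toFinset.sup LL + l.length * hS.1.toFinset.sup LL := by omega
      _ = _ := by ring

/-- the base group has property RD for every finite symmetric generating set -/
theorem gam_RD (S : Set Gam) (hS : IsFinSymmGen S) : HasRD S := by
  classical
  obtain ⟨M, hM⟩ := LL_le S hS
  refine ⟨2 * ((M : ℝ) + 1) ^ 6, 6, by norm_num, ?_⟩
  intro f ξ hξ
  set W := Real.sqrt (∑ y ∈ f.support, ‖f y‖ ^ 2 * ((LL y : ℝ) + 1) ^ (2 * (4 + 2))) with hW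
  have hW1 : W ≤ ((M : ℝ) + 1) ^ 6 * weightedNorm S 6 f := by
    rw [hW, weightedNorm, ← Real.sqrt_sq (show (0 : ℝ) ≤ ((M : ℝ) + 1) ^ 6 by positivity),
      ← Real.sqrt_mul (by positivity)]
    apply Real.sqrt_le_sqrt
    rw [Finset.mul_sum]
    refine Finset.sum_le_sum fun y _ => ?_
    have h1 : (LL y : ℝ) ≤ (wordLength S y : ℝ) * M := by exact_mod_cast hM y
    have h2 : (LL y : ℝ) + 1 ≤ ((M : ℝ) + 1) * (1 + (wordLength S y : ℝ)) := by
      have : (0 : ℝ) ≤ M := Nat.cast_nonneg _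
      have : (0 : ℝ) ≤ wordLength S y := Nat.cast_nonneg _
      nlinarith
    have h3 : (1 + (wordLength S y : ℝ)) ^ (2 * (6 : ℝ)) = (1 + (wordLength S y : ℝ)) ^ 12 := by
      have : (2 * (6 : ℝ)) = ((12 : ℕ) : ℝ) := by norm_num
      rw [this, Real.rpow_natCast]
    rw [h3]
    calc ‖f y‖ ^ 2 * ((LL y : ℝ) + 1) ^ (2 * (4 + 2))
        ≤ ‖f y‖ ^ 2 * (((M : ℝ) + 1) * (1 + (wordLength S y : ℝ))) ^ (2 * (4 + 2)) := by
          gcongr
      _ = _ := by ring
  set X := ∑' x, ‖ξ x‖ ^ 2 with hX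
  have hX0 : 0 ≤ X := tsum_nonneg fun _ => by positivity
  have key : ∀ E : Finset Gam, ∑ x ∈ E, ‖conv f ξ x‖ ^ 2 ≤ (2 * W) ^ 2 * X := by
    intro E
    obtain ⟨B, hB⟩ := rd_core LL 4 tri_gam f ξ E
    have hBX : Real.sqrt (∑ y ∈ B, ‖ξ y‖ ^ 2) ≤ Real.sqrt X := by
      apply Real.sqrt_le_sqrt
      exact hξ.sum_le_tsum B (fun _ _ => by positivity)
    have h1 : Real.sqrt (∑ x ∈ E, ‖conv f ξ x‖ ^ 2) ≤ 2 * W * Real.sqrt X := by
      refine le_trans hB ?_
      apply mul_le_mul_of_nonneg_left hBX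
      positivity
    have h0 : 0 ≤ ∑ x ∈ E, ‖conv f ξ x‖ ^ 2 := Finset.sum_nonneg fun _ _ => by positivity
    calc ∑ x ∈ E, ‖conv f ξ x‖ ^ 2 = Real.sqrt (∑ x ∈ E, ‖conv f ξ x‖ ^ 2) ^ 2 :=
          (Real.sq_sqrt h0).symm
      _ ≤ (2 * W * Real.sqrt X) ^ 2 := by
          apply pow_le_pow_left₀ (Real.sqrt_nonneg _) h1
      _ = (2 * W) ^ 2 * X := by rw [mul_pow, Real.sq_sqrt hX0]
  have hsum : Summable (fun x => ‖conv f ξ x‖ ^ 2) :=
    summable_of_sum_le (fun _ => by positivity) key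
  refine ⟨hsum, ?_⟩
  have h2 : ∑' x, ‖conv f ξ x‖ ^ 2 ≤ (2 * W) ^ 2 * X := hsum.tsum_le_of_sum_le key
  calc Real.sqrt (∑' x, ‖conv f ξ x‖ ^ 2) ≤ Real.sqrt ((2 * W) ^ 2 * X) := Real.sqrt_le_sqrt h2
    _ = 2 * W * Real.sqrt X := by
        rw [Real.sqrt_mul (by positivity), Real.sqrt_sq (by positivity)]
    _ ≤ 2 * (((M : ℝ) + 1) ^ 6 * weightedNorm S 6 f) * Real.sqrt X := by
        gcongr
    _ = _ := by ring

/-- the twisted group does not have property RD, for any finite symmetric generating set -/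
theorem lam_not_RD (T : Set LamG) (hT : IsFinSymmGen T) : ¬ HasRD T := by
  classical
  rintro ⟨C, s, hs, hRD⟩
  -- length bound on the finite subgroups
  obtain ⟨M, hM⟩ : ∃ M : ℕ, ∀ t ∈ T0, wordLength T t ≤ M :=
    ⟨T0_finite.toFinset.sup (wordLength T), fun t ht =>
      Finset.le_sup (f := wordLength T) (T0_finite.mem_toFinset.mpr ht)⟩
  have hlen : ∀ n : ℕ, ∀ x ∈ MM n, wordLength T x ≤ (n + n) * M := by
    intro n x hx
    obtain ⟨l, h1, h2, h3⟩ := MM_isProd n hx
    rw [← h3, ← h1]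
    exact wl_list hT M l (fun a ha => hM a (h2 a ha))
  set k : ℕ := ⌈2 * s⌉₊ with hk
  -- main inequality
  have main : ∀ n : ℕ, (2 : ℝ) ^ n ≤ C ^ 2 * (1 + ((n : ℝ) + n) * M) ^ k := by
    intro n
    set N : ℝ := (2 : ℝ) ^ n with hN
    have hNpos : 0 < N := by positivity
    have hcard : ((MM n).card : ℝ) = N := by rw [MM_card]; push_cast; rfl
    let f : LamG →₀ ℂ :=
      { support := MM n
        toFun := fun x => if x ∈ MM n then 1 else 0
        mem_support_toFun := by intro a; simp }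
    have hfsupp : f.support = MM n := rfl
    have hfval : ∀ x ∈ MM n, f x = 1 := by
      intro x hx
      show (if x ∈ MM n then (1 : ℂ) else 0) = 1
      rw [if_pos hx]
    have hfval0 : ∀ x, x ∉ MM n → f x = 0 := by
      intro x hx
      show (if x ∈ MM n then (1 : ℂ) else 0) = 0
      rw [if_neg hx]
    have hz : ∀ x ∉ MM n, ‖f x‖ ^ 2 = 0 := fun x hx => by rw [hfval0 x hx]; simp
    have hsummable : Summable (fun x => ‖f x‖ ^ 2) := summable_of_ne_finset_zero hz
    have htsum : ∑' x, ‖f x‖ ^ 2 = N := by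
      rw [tsum_eq_sum hz, Finset.sum_congr rfl (fun x hx => by rw [hfval x hx])]
      simp [hcard]
    obtain ⟨h1, h2⟩ := hRD f f hsummable
    rw [htsum] at h2
    have hconv : ∀ x ∈ MM n, conv f f x = (N : ℂ) := by
      intro x hx
      unfold conv
      rw [hfsupp, Finset.sum_congr rfl (fun y hy => by
        rw [hfval y hy, hfval _ (MM_closed n hy hx)])]
      simp only [mul_one, Finset.sum_const, nsmul_eq_mul]
      rw [← hcard]
      push_cast
      rfl
    have hlow : N ^ 3 ≤ ∑' x, ‖conv f f x‖ ^ 2 := by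
      calc N ^ 3 = ∑ x ∈ MM n, ‖conv f f x‖ ^ 2 := by
            rw [Finset.sum_congr rfl (fun x hx => by rw [hconv x hx])]
            rw [Finset.sum_const, nsmul_eq_mul, hcard, Complex.norm_real,
              Real.norm_of_nonneg hNpos.le]
            ring
        _ ≤ _ := h1.sum_le_tsum (MM n) (fun _ _ => by positivity)
    have hw : weightedNorm T s f ^ 2 ≤ N * (1 + ((n : ℝ) + n) * M) ^ k := by
      unfold weightedNorm
      rw [Real.sq_sqrt (Finset.sum_nonneg fun _ _ => by positivity), hfsupp]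
      calc ∑ g ∈ MM n, ‖f g‖ ^ 2 * (1 + (wordLength T g : ℝ)) ^ (2 * s)
          ≤ ∑ g ∈ MM n, (1 + ((n : ℝ) + n) * M) ^ k := by
            refine Finset.sum_le_sum fun g hg => ?_
            rw [hfval g hg]
            have e1 : (wordLength T g : ℝ) ≤ ((n : ℝ) + n) * M := by
              exact_mod_cast hlen n g hg
            have e2 : (1 : ℝ) ≤ 1 + (wordLength T g : ℝ) := by
              have : (0 : ℝ) ≤ wordLength T g := Nat.cast_nonneg _
              linarith
            calc ‖(1 : ℂ)‖ ^ 2 * (1 + (wordLength T g : ℝ)) ^ (2 * s)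
                = (1 + (wordLength T g : ℝ)) ^ (2 * s) := by simp
              _ ≤ (1 + (wordLength T g : ℝ)) ^ (k : ℝ) :=
                  Real.rpow_le_rpow_of_exponent_le e2 (Nat.le_ceil _)
              _ = (1 + (wordLength T g : ℝ)) ^ k := Real.rpow_natCast _ _
              _ ≤ _ := by gcongr
        _ = _ := by rw [Finset.sum_const, nsmul_eq_mul, hcard]
    have h3 : N ^ 3 ≤ C ^ 2 * (N * (1 + ((n : ℝ) + n) * M) ^ k) * N := by
      have h4 : Real.sqrt (N ^ 3) ≤ C * weightedNorm T s f * Real.sqrt N :=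
        (Real.sqrt_le_sqrt hlow).trans h2
      calc N ^ 3 = Real.sqrt (N ^ 3) ^ 2 := (Real.sq_sqrt (by positivity)).symm
        _ ≤ (C * weightedNorm T s f * Real.sqrt N) ^ 2 :=
            pow_le_pow_left₀ (Real.sqrt_nonneg _) h4 2
        _ = C ^ 2 * weightedNorm T s f ^ 2 * N := by
            rw [mul_pow, mul_pow, Real.sq_sqrt hNpos.le]
        _ ≤ _ := by gcongr
    have h5 : N * (N * N) ≤ (C ^ 2 * (1 + ((n : ℝ) + n) * M) ^ k) * (N * N) := by
      calc N * (N * N) = N ^ 3 := by ring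
        _ ≤ _ := h3
        _ = _ := by ring
    exact le_of_mul_le_mul_right h5 (by positivity)
  -- contradiction with exponential growth
  have hlim := tendsto_pow_const_div_const_pow_of_one_lt k (show (1 : ℝ) < 2 by norm_num)
  set D : ℝ := C ^ 2 * (1 + 2 * (M : ℝ)) ^ k + 1 with hD
  have hDpos : 0 < D := by positivity
  have hev := hlim.eventually (gt_mem_nhds (show (0 : ℝ) < 1 / D by positivity))
  obtain ⟨n, hn1, hn2⟩ := (hev.and (Filter.eventually_ge_atTop 1)).exists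
  have h2n : (0 : ℝ) < 2 ^ n := by positivity
  rw [div_lt_div_iff₀ h2n hDpos, one_mul] at hn1
  have hm := main n
  have hn1' : (1 : ℝ) ≤ n := by exact_mod_cast hn2
  have h6 : (1 + ((n : ℝ) + n) * M) ^ k ≤ ((1 + 2 * (M : ℝ)) * n) ^ k := by
    apply pow_le_pow_left₀ (by positivity)
    have : (0 : ℝ) ≤ M := Nat.cast_nonneg _
    nlinarith
  have h7 : (2 : ℝ) ^ n ≤ C ^ 2 * (1 + 2 * (M : ℝ)) ^ k * (n : ℝ) ^ k := by
    calc (2 : ℝ) ^ n ≤ C ^ 2 * (1 + ((n : ℝ) + n) * M) ^ k := hm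
      _ ≤ C ^ 2 * ((1 + 2 * (M : ℝ)) * n) ^ k := by gcongr
      _ = _ := by rw [mul_pow]; ring
  have h8 : (0 : ℝ) < (n : ℝ) ^ k := by positivity
  have h9 : C ^ 2 * (1 + 2 * (M : ℝ)) ^ k * (n : ℝ) ^ k ≤ (n : ℝ) ^ k * D := by
    rw [hD]; nlinarith
  linarith

/-- Property RD is not invariant under isometry of Cayley graphs: there are finitely generated
groups `Γ`, `Λ` with finite symmetric generating sets whose Cayley graphs are isomorphic, such that
`Γ` has property RD (for every finite symmetric generating set) and `Λ` does not (for any). -/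
theorem result : ∃ (Γ Λ : Type) (_ : Group Γ) (_ : Group Λ) (S : Set Γ) (T : Set Λ),
    IsFinSymmGen S ∧ IsFinSymmGen T ∧ Nonempty (cayleyGraph S ≃g cayleyGraph T) ∧
      (∀ S' : Set Γ, IsFinSymmGen S' → HasRD S') ∧
      (∀ T' : Set Λ, IsFinSymmGen T' → ¬ HasRD T') := by
  refine ⟨Gam, LamG, inferInstance, inferInstance, S0, T0,
    ⟨S0_finite, fun _ h => S0_inv h, S0_gen⟩, ⟨T0_finite, fun _ h => T0_inv h, T0_gen⟩,
    ⟨⟨eqv, ?_⟩⟩, gam_RD, lam_not_RD⟩
  intro x y
  show (toLam x ≠ toLam y ∧ ((toLam x)⁻¹ * toLam y ∈ T0 ∨ (toLam y)⁻¹ * toLam x ∈ T0)) ↔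
    (x ≠ y ∧ (x⁻¹ * y ∈ S0 ∨ y⁻¹ * x ∈ S0))
  rw [← adj_iff, ← adj_iff]
  have : toLam x ≠ toLam y ↔ x ≠ y := eqv.injective.ne_iff
  rw [this]

end Pool.Agent.Results.MP_fb096d_an.NotInvariant
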